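import Pool.Agent.Q210.SC.Main

/-!
# Graphs with the same number of copies of every graph of maximum degree at most `c n`

For all `n ≥ 160000000` there is one pair of nonisomorphic graphs `G`, `H` with `n` vertices such
that

* the `j`-dimensional Weisfeiler-Leman method does not distinguish `G` and `H` for all
  `j ≤ n / 45000000`;
* for every graph `F` (with any number of vertices) whose maximum degree is at most `n / 900`,
  the graphs `G` and `H` have the same number of subgraphs isomorphic to `F`, and also the same
  number of injective homomorphisms from `F`.

In particular `G` and `H` have the same numbers of perfect matchings, of Hamiltonian cycles, of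
`r`-factors of each isomorphism type for all `r ≤ n / 900`, of spanning trees of each isomorphism
type with maximum degree at most `n / 900`.

The graphs are built from `2 ^ (m ^ 2)` graphs `T x` with one hub, where `x` is a vector of `m ^ 2`
bits. The bit of the node `v` of the Margulis graph says whether the even or the odd vertices of the
gadget of `v` are attached to the hub, and a network of Cai, Fürer and Immerman type hides all bits
but their sum. If a copy of `F` does not use an edge between the hub and the gadget of `v`, then the
bit of `v` is irrelevant for the copy; if there is no such `v`, then the hub has degree at least
`m ^ 2` in the copy.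
-/

set_option autoImplicit false

namespace Pool.Agent.Results.MP_128e7d_lc.BoundedDegreeCopies

open Pool.Agent.W185.SRG

/-- Neither the Weisfeiler-Leman method of linear dimension nor the numbers of copies of all graphs
of maximum degree at most `n / 900` identify graphs. -/
theorem result (n : ℕ) (hn : 160000000 ≤ n) :
    ∃ G H : SimpleGraph (Fin n), ¬ Nonempty (G ≃g H) ∧
      (∀ j : ℕ, 45000000 * j ≤ n → WLEquivalent j G H) ∧
      ∀ (W : Type) [Fintype W] (F : SimpleGraph W) [DecidableRel F.Adj],
        (∀ w, 900 * F.degree w ≤ n) →
          G.copyCount F = H.copyCount F ∧ G.labelledCopyCount F = H.labelledCopyCount F :=
  Pool.Agent.Q210.SC.main n hn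

end Pool.Agent.Results.MP_128e7d_lc.BoundedDegreeCopies
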