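import Pool.Agent.Q210.LM.Main

/-!
# Symmetric tensor networks of logarithmic bond dimension and high-dimensional Weisfeiler-Leman

A local model assigns one of `k` states to each vertex and one of `l` states to each edge; the
weight of a configuration is the product over all vertices `v` of an arbitrary weight which depends
on the state of `v` and on the multiset, over the neighbours `w` of `v`, of the state of the edge
`vw` and the state of `w`. For `k = 1` these are the vertex models (edge colouring models, symmetric
tensor networks) with bond dimension `l`; for `l = 1` they contain the counting problems for
locally checkable labellings with `k` labels.

For all `n ≥ 320000000` there is one pair of nonisomorphic graphs `G`, `H` with `n` vertices such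
that

* the `j`-dimensional Weisfeiler-Leman method does not distinguish `G` and `H` for all
  `j ≤ n / 90000000`;
* for all `k`, `l` with `k ^ 2 * l + 3 ≤ log₂ n` there is a bijection between the configurations of
  `G` and of `H` which preserves the multiset of all views, so `G` and `H` have the same partition
  function in all local models with `k` states of the vertices and `l` states of the edges, over
  all commutative semirings.

The graphs contain a double cover of the cube of dimension `r` (a graph with `2 ^ (r + 1)` vertices
in which the even, but not the odd permutations of the coordinates act) and a matching between the
coordinates and `r` labelled vertices. Two edges of the matching with the same states can be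
switched; this changes the parity of the matching, which the cover and a network of Cai, Fürer and
Immerman type on the Margulis graph hide from the Weisfeiler-Leman method.
-/

set_option autoImplicit false

namespace Pool.Agent.Results.MP_128e7d_lc.LocalModels

open Pool.Agent.Q210.LM Pool.Agent.W185.SRG

/-- Neither the Weisfeiler-Leman method of linear dimension nor the partition functions of all
local models with logarithmically many states identify graphs. -/
theorem result (n : ℕ) (hn : 320000000 ≤ n) :
    ∃ G H : SimpleGraph (Fin n), ¬ Nonempty (G ≃g H) ∧
      (∀ j : ℕ, 90000000 * j ≤ n → WLEquivalent j G H) ∧
      ∀ k l : ℕ, k ^ 2 * l + 3 ≤ Nat.log 2 n →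
        (∃ Φ : ((Fin n → Fin k) × (G.edgeSet → Fin l)) ≃
            ((Fin n → Fin k) × (H.edgeSet → Fin l)),
          ∀ z, views H (Φ z).1 (Φ z).2 = views G z.1 z.2) ∧
        ∀ (R : Type) [CommSemiring R] (h : Fin k → Multiset (Fin l × Fin k) → R),
          localModel G h = localModel H h :=
  Pool.Agent.Q210.LM.main n hn

end Pool.Agent.Results.MP_128e7d_lc.LocalModels
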