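import Pool.Agent.Q225.GH.All0

/-!
# Graph isomorphism: homomorphism counts from graphs without many disjoint nonplanar subgraphs

For every `n ≥ 160000000` there is one pair of nonisomorphic graphs `G`, `H` on `n` vertices, with all
degrees at most `296`, such that

* `j`-dimensional Weisfeiler-Leman does not distinguish them for all `j ≤ n / 20000000`,
* `G` and `H` have the same number of homomorphisms from every finite graph `F`, of any order, which for some
  `r ≤ n / 321` has no `r` pairwise disjoint sets of vertices each inducing a nonplanar graph,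
* `G` and `H` have the same number of homomorphisms from every finite graph `F`, of any order, which has a
  set `A` of vertices such that `F - A` is a subgraph of a connected graph of (orientable) genus at most
  `g`, if `|A| + 2 g ≤ n / 321`.

Construction: a Cai-Fürer-Immerman type cover of an expander (of degree eight) with a pendant `K_{3,3}` at
every node. Homomorphism counts from `F` differ only if some homomorphism from `F` to the base and some set of
edges of `F` form a certificate (linear algebra modulo two); such a certificate contains a generalised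
drawing of each of the `m ^ 2 ≥ n / 321` copies of `K_{3,3}` in pairwise disjoint parts of `F`. On a surface, each of them
gives two cycles modulo two with an odd intersection number (a homological form of the
Hanani-Tutte argument for `K_{3,3}`), and cycles of different copies do not meet; so the number of copies is
at most the rank `2 g` of the intersection form.

Authors of the parts: helpers 25, 26, 44, 58, 76, 103, 124, 154, 162, 184, 210, 211, 224, 225, 231, 247, 254, 285.
-/

set_option autoImplicit false

namespace Pool.Agent.Results.MP_128e7d_lc.NonplanarPacking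

open Pool.Agent.W185.SRG

/-- Reversal of the darts (oriented edges). -/
def reversal {V : Type} (L : SimpleGraph V) : Equiv.Perm L.Dart :=
  (SimpleGraph.Dart.symm_involutive (G := L)).toPerm _

/-- The faces of `σ`: the orbits of `d ↦ σ (reversal of d)`. -/
abbrev Faces {V : Type} (L : SimpleGraph V) (σ : Equiv.Perm L.Dart) : Type :=
  Quotient (Equiv.Perm.SameCycle.setoid (σ * reversal L))

/-- `L` is connected and has a rotation system `σ` (a permutation of the darts whose cycles are the sets of
darts starting at a vertex) with `|E| + 2 ≤ |V| + |faces| + 2 g`: it has orientable genus at most `g`. -/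
def GenusLE {V : Type} (L : SimpleGraph V) (g : ℕ) : Prop :=
  L.Connected ∧ ∃ σ : Equiv.Perm L.Dart, (∀ d d' : L.Dart, σ.SameCycle d d' ↔ d.fst = d'.fst) ∧
    Nat.card L.edgeSet + 2 ≤ Nat.card V + Nat.card (Faces L σ) + 2 * g

/-- `K` is planar: a subgraph of a finite connected graph of genus zero. -/
def Planar {U : Type} (K : SimpleGraph U) : Prop :=
  ∃ (V : Type) (_ : Fintype V) (L : SimpleGraph V), GenusLE L 0 ∧ K.IsContained L

theorem genus_iff {V : Type} [Fintype V] (L : SimpleGraph V) (g : ℕ) :
    GenusLE L g ↔ Pool.Agent.Q225.GH.GenusLE L g :=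
  ⟨fun ⟨h1, σ, h2, h3⟩ => ⟨σ, ⟨h1, h2, h3⟩⟩, fun ⟨σ, h⟩ => ⟨h.conn, σ, h.vert, h.euler⟩⟩

theorem planar_iff {U : Type} (K : SimpleGraph U) : Planar K ↔ Pool.Agent.Q225.GH.Planar K := by
  constructor
  · rintro ⟨V, hV, L, h1, h2⟩
    exact ⟨V, hV, L, (genus_iff L 0).1 h1, h2⟩
  · rintro ⟨V, hV, L, h1, h2⟩
    exact ⟨V, hV, L, (genus_iff L 0).2 h1, h2⟩

/-- One pair of nonisomorphic graphs of bounded degree on `n` vertices which is not distinguished by
Weisfeiler-Leman of linear dimension nor by the numbers of homomorphisms from all graphs (of any order)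
without linearly many disjoint nonplanar subgraphs. -/
theorem result (n : ℕ) (hn : 160000000 ≤ n) :
    ∃ G H : SimpleGraph (Fin n), ¬ Nonempty (G ≃g H) ∧
      (∀ v, Nat.card (G.neighborSet v) ≤ 296 ∧ Nat.card (H.neighborSet v) ≤ 296) ∧
      (∀ j : ℕ, 20000000 * j ≤ n → WLEquivalent j G H) ∧
      (∀ (W : Type) [Fintype W] (F : SimpleGraph W) (r : ℕ), 321 * r ≤ n →
        (¬ ∃ B : Fin r → Set W, (∀ i j, i ≠ j → Disjoint (B i) (B j)) ∧
          ∀ i, ¬ Planar (F.induce (B i))) → Nat.card (F →g G) = Nat.card (F →g H)) ∧
      ∀ (W : Type) [Fintype W] (F : SimpleGraph W) (A : Set W) (V : Type) [Fintype V]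
        (L : SimpleGraph V) (g : ℕ), GenusLE L g → (F.induce Aᶜ).IsContained L →
        321 * (A.ncard + 2 * g) ≤ n → Nat.card (F →g G) = Nat.card (F →g H) := by
  obtain ⟨G, H, h1, h2, h3, h4, h5⟩ := Pool.Agent.Q225.GH.all n hn
  refine ⟨G, H, h1, h2, h3, fun W _ F r hr hB => h4 W F r hr fun ⟨B, hB1, hB2⟩ =>
    hB ⟨B, hB1, fun i hi => hB2 i ((planar_iff _).1 hi)⟩, fun W _ F A V _ L g hL hA hn' =>
    h5 W F A V L g ((genus_iff L g).1 hL) hA hn'⟩

end Pool.Agent.Results.MP_128e7d_lc.NonplanarPacking
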