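import Pool.Agent.Q210.SP.Main

/-!
# Partition functions with `c √n` states and the `c n`-dimensional Weisfeiler-Leman method

For all `n ≥ 160000000` there is one pair of nonisomorphic graphs `G`, `H` with `n` vertices such
that

* the `j`-dimensional Weisfeiler-Leman method does not distinguish `G` and `H` for all
  `j ≤ n / 45000000`;
* for all `k ≤ √n / 30` there is a bijection between the partitions `f` of the vertices into `k`
  parts which preserves the numbers of vertices of the parts and the numbers of edges in the parts
  and between them, so `G` and `H` have the same partition function in all models with `k` states,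
  vertex weights, edge weights and nonedge weights in all commutative semirings (in particular the
  same number of homomorphisms to each weighted graph with `k` vertices).

The graphs are built from `2 ^ (m ^ 2)` graphs `T x` with `m` hubs, where `x` has a bit for each pair
`(a, b)` of hubs. The bit says to which of the hubs `a` and `b` the even vertices of the pair are
attached, and a network of Cai, Fürer and Immerman type on the Margulis graph of the pairs hides all
bits but their sum. If the number of parts is less than `m`, then two hubs are in the same part, and
the bit of this pair is irrelevant.
-/

set_option autoImplicit false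

namespace Pool.Agent.Results.MP_128e7d_lc.StateModels

open Pool.Agent.Q210.SM Pool.Agent.W185.SRG

/-- Neither the Weisfeiler-Leman method of linear dimension nor the statistics of all partitions of
the vertices into `c √n` parts identify graphs. -/
theorem result (n : ℕ) (hn : 160000000 ≤ n) :
    ∃ G H : SimpleGraph (Fin n), ¬ Nonempty (G ≃g H) ∧
      (∀ j : ℕ, 45000000 * j ≤ n → WLEquivalent j G H) ∧
      ∀ k : ℕ, 900 * k ^ 2 ≤ n →
        (∃ Φ : Equiv.Perm (Fin n → Fin k), ∀ f : Fin n → Fin k,
          (∀ i, size (Φ f) i = size f i) ∧ ∀ q, edgesIn H (Φ f) q = edgesIn G f q) ∧
        ∀ (R : Type) [CommSemiring R] (α : Fin k → R) (β γ : Sym2 (Fin k) → R),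
          partitionFunction G α β γ = partitionFunction H α β γ :=
  Pool.Agent.Q210.SP.main n hn

end Pool.Agent.Results.MP_128e7d_lc.StateModels
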